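import Mathlib
import Pool.Agent.H41.AL.Defs

set_option autoImplicit false

/-!
# Correspondence packings with `(1 + ε) Δ` colours: the choice of the parameters
-/

namespace Pool.Agent.H87.AL

open Pool.Agent.H41.AL

theorem parm : S_PARM := by
  intro ε hε hε1
  obtain ⟨u, hu⟩ : ∃ u : ℝ, u = ε / 8 := ⟨_, rfl⟩
  have hu0 : 0 < u := by rw [hu]; positivity
  have hu8 : u ≤ 1 / 8 := by rw [hu]; linarith
  have he : ε = 8 * u := by rw [hu]; ring
  obtain ⟨K, hK⟩ : ∃ K : ℕ, 2 / u ^ 2 ≤ K := exists_nat_ge _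
  obtain ⟨D₀, hD₀⟩ : ∃ D₀ : ℕ, 3 / u ^ 2 ≤ D₀ := exists_nat_ge _
  have hu2 : 0 < u ^ 2 := by positivity
  have hK2 : 2 ≤ u ^ 2 * K := by
    rw [div_le_iff₀ hu2] at hK
    linarith
  have hK0 : (0 : ℝ) < K := lt_of_lt_of_le (by positivity) hK
  have hK1 : 1 ≤ K := by
    have : 0 < K := by exact_mod_cast hK0
    omega
  obtain ⟨a, ha⟩ : ∃ a : ℕ → ℝ, a = fun i : ℕ => 1 - (i : ℝ) * (1 - u) / K := ⟨_, rfl⟩
  have haK : ∀ i, i ≤ K → u ≤ a i ∧ a i ≤ 1 := by
    intro i hi
    have h1 : (i : ℝ) ≤ K := by exact_mod_cast hi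
    have h2 : (i : ℝ) * (1 - u) / K ≤ 1 - u := by
      rw [div_le_iff₀ hK0]
      have h3 : (i : ℝ) * (1 - u) ≤ K * (1 - u) := mul_le_mul_of_nonneg_right h1 (by linarith)
      linarith
    have h3 : 0 ≤ (i : ℝ) * (1 - u) / K := by
      have : 0 ≤ 1 - u := by linarith
      positivity
    rw [ha]
    constructor
    · show u ≤ 1 - (i : ℝ) * (1 - u) / K
      linarith
    · show 1 - (i : ℝ) * (1 - u) / K ≤ 1
      linarith
  have hstep : ∀ i : ℕ, a (i + 1) = a i - (1 - u) / K := by
    intro i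
    rw [ha]
    show 1 - ((i + 1 : ℕ) : ℝ) * (1 - u) / K = 1 - (i : ℝ) * (1 - u) / K - (1 - u) / K
    push_cast
    ring
  have ha0 : a 0 = 1 := by
    rw [ha]
    show 1 - ((0 : ℕ) : ℝ) * (1 - u) / K = 1
    simp
  refine ⟨K, 1 / u, u, u, fun i => 1 / a i, D₀, hK1, ?_, hu0, by linarith, hu0, by linarith, ?_, ?_, ?_⟩
  · rw [le_div_iff₀ hu0]
    linarith
  · show 1 / a 0 = 1
    rw [ha0, div_one]
  · intro i hi
    obtain ⟨h1, h2⟩ := haK i hi
    have h3 : 0 < a i := by linarith
    constructor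
    · show 1 ≤ 1 / a i
      rw [le_div_iff₀ h3]
      linarith
    · show 1 / a i ≤ 1 / u
      exact one_div_le_one_div_of_le hu0 h1
  · intro D hD n hn
    have hD1 : 3 / u ^ 2 ≤ (D : ℝ) := hD₀.trans (by exact_mod_cast hD)
    have hD3 : 3 ≤ u ^ 2 * D := by
      rw [div_le_iff₀ hu2] at hD1
      linarith
    have hD0 : (0 : ℝ) < D := lt_of_lt_of_le (by positivity) hD1
    rw [he] at hn
    refine ⟨fun i => ⌊(1 - u) * n * a (i + 1)⌋₊, ?_, ?_, ?_⟩
    · intro i hi
      obtain ⟨h1, h2⟩ := haK (i + 1) (by omega)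
      refine Nat.le_floor ?_
      push_cast
      have h3 : (1 - u) * ((1 + 8 * u) * D) ≤ (1 - u) * n :=
        mul_le_mul_of_nonneg_left hn (by linarith)
      have h4 : (D : ℝ) ≤ (1 - u) * ((1 + 8 * u) * D) := by
        have h5 : 1 ≤ (1 - u) * (1 + 8 * u) := by nlinarith
        nlinarith
      have h5 : (D : ℝ) * u ≤ (1 - u) * n * a (i + 1) :=
        mul_le_mul (h4.trans h3) h1 hu0.le (by
          have : (0 : ℝ) ≤ 1 - u := by linarith
          positivity)
      have h6 : u ^ 2 * D ≤ D * u := by nlinarith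
      linarith
    · intro i hi
      obtain ⟨h1, h2⟩ := haK (i + 1) (by omega)
      show ((⌊(1 - u) * n * a (i + 1)⌋₊ : ℕ) : ℝ) ≤ (1 - u) * n / (1 / a (i + 1))
      have h3 : (1 - u) * n / (1 / a (i + 1)) = (1 - u) * n * a (i + 1) := by
        rw [one_div, div_inv_eq_mul]
      rw [h3]
      refine Nat.floor_le ?_
      have h4 : (0 : ℝ) ≤ 1 - u := by linarith
      have h5 : (0 : ℝ) ≤ a (i + 1) := by linarith
      positivity
    · intro d hd i hi
      obtain ⟨h1, h2⟩ := haK (i + 1) (by omega)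
      obtain ⟨h1', h2'⟩ := haK i (by omega)
      obtain ⟨x, hx⟩ : ∃ x : ℝ, x = (1 - u) * n * a (i + 1) := ⟨_, rfl⟩
      obtain ⟨L, hL⟩ : ∃ L : ℕ, L = ⌊x⌋₊ := ⟨_, rfl⟩
      show 1 / a i * (((⌊(1 - u) * n * a (i + 1)⌋₊ : ℕ) : ℝ) /
        (((⌊(1 - u) * n * a (i + 1)⌋₊ : ℕ) : ℝ) - 1)) ^ d ≤ 1 / a (i + 1)
      rw [← hx, ← hL]
      have hLx : x - 1 < (L : ℝ) := by
        rw [hL]
        exact Nat.sub_one_lt_floor x
      have ha1 : 0 < a (i + 1) := by linarith
      have ha2 : 0 < a i := by linarith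
      -- lower bound for `x`
      have h3 : (1 - u) * ((1 + 8 * u) * D) ≤ (1 - u) * n :=
        mul_le_mul_of_nonneg_left hn (by linarith)
      have h4 : (1 - u) * ((1 + 8 * u) * D) * a (i + 1) ≤ x := by
        rw [hx]
        exact mul_le_mul_of_nonneg_right h3 ha1.le
      -- the key inequality
      have hkey : a i * ((1 + u) * D) ≤ (1 - u) * L := by
        have e1 : a (i + 1) = a i - (1 - u) / K := hstep i
        have hcoef : 1 + 4 * u ≤ (1 - u) * ((1 - u) * (1 + 8 * u)) := by nlinarith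
        have hcoef2 : (1 - u) * ((1 - u) * (1 + 8 * u)) ≤ 2 := by nlinarith
        have h5 : (1 - u) / K ≤ u ^ 2 / 2 := by
          rw [div_le_iff₀ hK0]
          nlinarith
        have h6 : 0 ≤ (1 - u) / K := by
          have : (0 : ℝ) ≤ 1 - u := by linarith
          positivity
        have h7 : (1 - u) * (x - 1) ≤ (1 - u) * L := mul_le_mul_of_nonneg_left hLx.le (by linarith)
        have h8 : (1 - u) * ((1 - u) * ((1 + 8 * u) * D) * a (i + 1)) ≤ (1 - u) * x :=
          mul_le_mul_of_nonneg_left h4 (by linarith)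
        have h9 : (1 - u) * ((1 - u) * ((1 + 8 * u) * D) * a (i + 1)) =
            (1 - u) * ((1 - u) * (1 + 8 * u)) * (D * a i) -
            (1 - u) * ((1 - u) * (1 + 8 * u)) * (D * ((1 - u) / K)) := by
          rw [e1]
          ring
        have h10 : (1 + 4 * u) * (D * a i) ≤ (1 - u) * ((1 - u) * (1 + 8 * u)) * (D * a i) :=
          mul_le_mul_of_nonneg_right hcoef (by positivity)
        have h11 : (1 - u) * ((1 - u) * (1 + 8 * u)) * (D * ((1 - u) / K)) ≤ 2 * (D * (u ^ 2 / 2)) :=
          mul_le_mul hcoef2 (mul_le_mul_of_nonneg_left h5 hD0.le) (by positivity) (by norm_num)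
        have h12 : u * (D * u) ≤ u * (D * a i) :=
          mul_le_mul_of_nonneg_left (mul_le_mul_of_nonneg_left h1' hD0.le) hu0.le
        have h13 : (1 + 4 * u) * (D * a i) - 2 * (D * (u ^ 2 / 2)) ≤ (1 - u) * x := by linarith
        have h14 : (1 - u) * x - (1 - u) ≤ (1 - u) * L := by
          have e2 : (1 - u) * (x - 1) = (1 - u) * x - (1 - u) := by ring
          linarith
        have h15 : u * (D * u) = u ^ 2 * D := by ring
        have h16 : 2 * (D * (u ^ 2 / 2)) = u ^ 2 * D := by ring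
        have h17 : (1 + 4 * u) * (D * a i) = a i * ((1 + u) * D) + 3 * (u * (D * a i)) := by ring
        linarith
      have hL0 : (0 : ℝ) < L := by
        have h5 : 0 < a i * ((1 + u) * D) := by positivity
        have h6 : 0 < (1 - u) * L := h5.trans_le hkey
        have h7 : (0 : ℝ) < 1 - u := by linarith
        exact (mul_pos_iff_of_pos_left h7).1 h6
      have hL1 : (1 : ℝ) < L := by
        have h5 : u * D ≤ a i * ((1 + u) * D) :=
          mul_le_mul h1' (by
            have : 0 ≤ u * D := by positivity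
            linarith) hD0.le ha2.le
        have h6 : (1 - u) * L ≤ L := by
          have : 0 ≤ u * L := by positivity
          linarith
        have h7 : u ^ 2 * D ≤ u * D := by
          have h8 : u ^ 2 ≤ u := by
            have h9 : u * u ≤ u * 1 := mul_le_mul_of_nonneg_left (by linarith) hu0.le
            linarith [sq u]
          exact mul_le_mul_of_nonneg_right h8 hD0.le
        linarith
      have hb : a (i + 1) ≤ a i * (1 - d / L) := by
        have h5 : (1 - u) / K = a i - a (i + 1) := by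
          rw [hstep i]
          ring
        have h6 : a i * (d / L) ≤ (1 - u) / K := by
          rw [le_div_iff₀ hK0]
          have h7 : (d : ℝ) * K ≤ (1 + u) * D := by
            rwa [le_div_iff₀ hK0] at hd
          have h8 : a i * (d / L) * K = a i * (d * K) / L := by ring
          rw [h8, div_le_iff₀ hL0]
          exact (mul_le_mul_of_nonneg_left h7 ha2.le).trans hkey
        have h7 : a i * (1 - d / L) = a i - a i * (d / L) := by ring
        rw [h7]
        linarith
      have hbern : 1 - (d : ℝ) / L ≤ (1 - 1 / L) ^ d := by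
        have h5 := one_add_mul_le_pow (a := -(1 / (L : ℝ))) (by
          have h6 : 1 / (L : ℝ) ≤ 1 := by
            rw [div_le_one hL0]
            exact hL1.le
          linarith) d
        have h6 : 1 - (d : ℝ) / L = 1 + d * -(1 / (L : ℝ)) := by ring
        have h7 : (1 - 1 / (L : ℝ)) = 1 + -(1 / (L : ℝ)) := by ring
        rw [h6, h7]
        exact h5
      have hr : ((L : ℝ) / (L - 1)) ^ d = 1 / (1 - 1 / L) ^ d := by
        rw [← one_div_pow]
        congr 1
        have h5 : (L : ℝ) - 1 ≠ 0 := by linarith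
        have h6 : (L : ℝ) ≠ 0 := hL0.ne'
        have h7 : 1 - 1 / (L : ℝ) = (L - 1) / L := by field_simp
        rw [h7, one_div_div]
      rw [hr, one_div_mul_one_div]
      refine one_div_le_one_div_of_le ha1 ?_
      exact hb.trans (mul_le_mul_of_nonneg_left hbern ha2.le)

end Pool.Agent.H87.AL
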